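import Pool.Agent.H77.Dv3

namespace Pool.Agent.Results.MP_8a688e_nt.Connected

open H77.Dv Metric

theorem result : ∃ c : ℂ, c.im ≠ 0 ∧ c.re < -1 ∧
    IsConnected (closure {x : ℂ | ∃ n : ℕ, 1 ≤ n ∧ x = ∑ d ∈ n.divisors, (d : ℂ) ^ c}) := by
  obtain ⟨s, hs, hch⟩ := chain
  refine ⟨cc s, tt_pos.ne', show -s < -1 by linarith, ?_⟩
  set S := {x : ℂ | ∃ n : ℕ, 1 ≤ n ∧ x = ∑ d ∈ n.divisors, (d : ℂ) ^ cc s} with hS
  have hmem : ∀ n, n ≠ 0 → sg (cc s) n ∈ closure S := fun n hn =>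
    subset_closure ⟨n, Nat.pos_of_ne_zero hn, rfl⟩
  obtain ⟨Z, -, hZ⟩ := sg_bd hs
  have hK : IsCompact (closure S) := by
    refine Bornology.IsBounded.isCompact_closure ?_
    refine (isBounded_closedBall (x := (0 : ℂ)) (r := Z)).subset ?_
    rintro _ ⟨n, -, rfl⟩
    exact mem_closedBall_zero_iff.2 (hZ n)
  refine ⟨⟨_, hmem 1 one_ne_zero⟩, isPreconnected_closed_iff.2 fun t t' ht ht' hc h1 h2 => ?_⟩
  by_contra hne
  have hd : Disjoint (closure S ∩ t) (closure S ∩ t') :=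
    Set.disjoint_left.2 fun x a b => hne ⟨x, a.1, a.2, b.2⟩
  obtain ⟨δ, hδ, hth⟩ := hd.exists_thickenings (hK.inter_right ht) (isClosed_closure.inter ht')
  have key : ∀ x ∈ closure S, ∀ y ∈ closure S, dist x y < δ → y ∈ t → x ∈ t := by
    intro x hx y hy hxy hyt
    rcases hc hx with h | h
    · exact h
    · exact absurd (self_subset_thickening hδ (closure S ∩ t') ⟨hx, h⟩)
        (Set.disjoint_left.1 hth (mem_thickening_iff.2 ⟨y, ⟨hy, hyt⟩, hxy⟩))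
  have hall := hch (fun n => sg (cc s) n ∈ t) δ hδ fun n n' hn hn' h =>
    ⟨key _ (hmem _ hn') _ (hmem _ hn) (by rwa [dist_comm, dist_eq_norm]),
      key _ (hmem _ hn) _ (hmem _ hn') (by rwa [dist_eq_norm])⟩
  obtain ⟨a, ha, hat⟩ := h1
  obtain ⟨b, hb, hbt⟩ := h2
  obtain ⟨_, ⟨n, hn, rfl⟩, hna⟩ := Metric.mem_closure_iff.1 ha δ hδ
  obtain ⟨_, ⟨m, hm, rfl⟩, hmb⟩ := Metric.mem_closure_iff.1 hb δ hδ
  have e1 : sg (cc s) n ∈ t := key _ (hmem n (by omega)) a ha (by rwa [dist_comm]) hat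
  have e2 : sg (cc s) m ∈ t := (hall m (by omega)).2 ((hall n (by omega)).1 e1)
  exact hne ⟨b, hb, key b hb _ (hmem m (by omega)) hmb e2, hbt⟩

end Pool.Agent.Results.MP_8a688e_nt.Connected
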